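import Pool.Agent.LibBHN.CountA
import Pool.Agent.LibDual85.Defs
import Pool.Agent.LibDual85.Ex

/-!
One more query at the logarithmic scale: definitions.
-/

namespace Pool.Agent.LibQry85

open Function Pool.Agent.LibNexp Pool.Agent.LibBHN Pool.Agent.LibDual85

variable {O : List Bool → Bool}

/-- The graph of `r`, with the values in unary, belongs to the class. -/
def Constr (O : List Bool → Bool) (r : ℕ → ℕ) : Prop :=
  {w : List Bool | ∃ x y : List Bool, w = pair x y ∧ y.length = r x.length} ∈ NEXPLang O

theorem Constr.nexp {r : ℕ → ℕ} (h : Constr O r) {k : ℕ} (i j : Fin k) :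
    NEXP O fun e : Fin k → List Bool => (e j).length = r (e i).length := by
  refine (nexp_pair_mem h i j).congr fun e => ?_
  constructor
  · rintro ⟨x, y, h1, h2⟩
    obtain ⟨h3, h4⟩ := pair_injective h1
    rw [h3, h4, h2]
  · intro h1
    exact ⟨_, _, rfl, h1⟩

theorem constr_of_nexp {r : ℕ → ℕ}
    (h : NEXP O fun e : Fin 2 → List Bool => (e 1).length = r (e 0).length) : Constr O r := by
  obtain ⟨B, hB, hBR⟩ := rel_of_nexp (C := fun x y => y.length = r x.length) h
  have h1 : NEXP O fun e : Fin 3 → List Bool => e 0 = pair (e 1) (e 2) ∧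
      (e 2).length = r (e 1).length :=
    (nexp_pair 1 2 0).and ((h.reindex ![1, 2]).congr fun e => by simp)
  have h2 := nexp_exN (k := 1) (m := 2) (R := fun e z => e 0 = pair (z 0) (z 1) ∧
      (z 1).length = r (z 0).length) h1 (g := fun n => n) PolyB.id monotone_id (by
    rintro e z ⟨h3, -⟩ j
    have h4 := congrArg List.length h3
    rw [length_pair] at h4
    have h5 := len_le_size e 0
    show _ ≤ size e
    fin_cases j
    · show (z 0).length ≤ _; omega
    · show (z 1).length ≤ _; omega)
  refine h2.congr fun e => ?_
  constructor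
  · rintro ⟨z, h3, h4⟩
    exact ⟨z 0, z 1, h3, h4⟩
  · rintro ⟨x, y, h3, h4⟩
    exact ⟨![x, y], h3, h4⟩

/-- The block number `i` of length `b`. -/
def blk (b i : ℕ) (Y : List Bool) : List Bool := (Y.drop (b * i)).take b

/-- Some complete block with a number at least `j - 1` codes a number below `T`. -/
def Rch (b T : ℕ) (Y : List Bool) (j : ℕ) : Prop :=
  ∃ i, j ≤ i + 1 ∧ b * i + b ≤ Y.length ∧ val (blk b i Y) < T

/-- All complete blocks code numbers above `s`. -/
def Above (b s : ℕ) (c : List Bool) : Prop := ∀ k, b * k + b ≤ c.length → s < val (blk b k c)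

/-- The word is empty or its last block codes a number below `s`. -/
def Pre (b s : ℕ) (a : List Bool) : Prop := a = [] ∨ ∃ a0 z, a = a0 ++ z ∧ z.length = b ∧ val z < s

/-- The case number `i` with the claimed world `s`. -/
def CaseAt (b ell : ℕ) (f : List Bool → ℕ) (i : ℕ) (s : List Bool) : Prop :=
  ∃ a : List Bool, a.length = b * i ∧ Pre b (val s) a ∧
    ∃ m, m + b * (i + 1) = ell ∧
      ∀ c : List Bool, c.length = m → Above b (val s) c → i + 1 ≤ f (a ++ s ++ c)

/-- The path `α` of answers is legal: its positive answers are true. -/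
def Legal (F : Lang) (q α : List Bool) : Prop := ∀ β γ, α = β ++ true :: γ → pair q β ∈ F

/-- The value certified by legal paths is at least `|J|`. -/
def VP (F G : Lang) (rho : ℕ → ℕ) (q J : List Bool) : Prop :=
  ∃ α : List Bool, α.length = rho q.length ∧ Legal F q α ∧
    (J.length ≤ 2 * val α.reverse ∨ (J.length ≤ 2 * val α.reverse + 1 ∧ pair q α ∉ G))

open Classical in
/-- The value of the protocol on the question `q`. -/
noncomputable def vprime (F G : Lang) (rho : ℕ → ℕ) (q : List Bool) : ℕ :=
  2 * val (kans F (fun β => β) q (rho q.length)).reverse +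
    if pair q (kans F (fun β => β) q (rho q.length)) ∈ G then 0 else 1

/-- A block with a number at least `val t - 1` of the question `q` codes a number below the
number of strings in `K`. -/
def Reached (K : Lang) (q t : List Bool) : Prop :=
  ∃ n' u z y I z' : List Bool, q = pair n' (u ++ z ++ y) ∧ z.length = n'.length + 1 ∧
    u.length = z.length * I.length ∧ val t ≤ I.length + 1 ∧
    Suc z z' ∧ val z' ≤ cnt n'.length fun y => y ∈ K

/-- Some complete block of `c` codes a number at most `val s`. -/
def Low (s c : List Bool) : Prop :=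
  ∃ u z y I : List Bool, c = u ++ z ++ y ∧ z.length = s.length ∧
    u.length = z.length * I.length ∧ val z ≤ val s

/-- The certificate of the world `s` with the case number `|I|`, at the scale `|n'|`. -/
def Cert (F G : Lang) (rho ell : ℕ → ℕ) (n' I s : List Bool) : Prop :=
  ∃ a C : List Bool, a.length = s.length * I.length ∧ Pre s.length (val s) a ∧
    (a ++ s ++ C).length = ell n'.length ∧
    ∀ c, c.length = C.length → Low s c ∨ VP F G rho (pair n' (a ++ s ++ c)) (I ++ [true])

/-- The relation with the advice `a`: the case number. -/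
def RelC (K F G : Lang) (rho ell : ℕ → ℕ) (x a : List Bool) : Prop :=
  ∃ n' I s : List Bool, (n' = ones x.length ∧ val a = I.length) ∧ Cert F G rho ell n' I s ∧
    s.length = x.length + 1 ∧ val s ≤ cnt x.length fun y => y ∈ K ∧ y ≠ x

end Pool.Agent.LibQry85
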