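import Pool.Agent.LibDual85.Rev
import Pool.Agent.LibQry85.Defs

/-! Task LQ-4: the value of a protocol, in the class. -/

namespace Pool.Agent.LibQry85

open Function Pool.Agent.LibNexp Pool.Agent.LibBHN Pool.Agent.LibDual85

variable {O : List Bool → Bool}

/-- `|e i| ≤ c |e j| + d` -/
theorem vpn_linLe (c d : ℕ) {k : ℕ} (i j : Fin k) :
    NEXP O fun e : Fin k → List Bool => (e i).length ≤ c * (e j).length + d := by
  have h1 : NEXP O fun e : Fin 3 → List Bool => (e 2).length = c * (e 1).length + d ∧
      (e 0).length ≤ (e 2).length := (nexp_lin c d 1 2).and (nexp_lenLe 0 2)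
  have h2 : NEXP O fun e : Fin 2 → List Bool => ∃ z : List Bool,
      z.length = c * (e 1).length + d ∧ (e 0).length ≤ z.length := by
    refine nexp_ex (R := fun (e : Fin 2 → List Bool) z => z.length = c * (e 1).length + d ∧
      (e 0).length ≤ z.length) h1 (g := fun n => c * n + d)
      (((PolyB.const c).mul PolyB.id).add (PolyB.const d)) ?_
    rintro e z ⟨h, -⟩
    rw [h]
    exact Nat.add_le_add_right (Nat.mul_le_mul_left _ (len_le_size e 1)) _
  have h3 : NEXP O fun e : Fin 2 → List Bool => (e 0).length ≤ c * (e 1).length + d := by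
    refine h2.congr fun e => ?_
    constructor
    · rintro ⟨z, h, h'⟩
      omega
    · intro h
      exact ⟨List.replicate (c * (e 1).length + d) true, by simp, by simpa using h⟩
  refine (h3.reindex ![i, j]).congr fun e => ?_
  simp

/-- a step along a path -/
def VpnStep (F : Lang) (q α β β' : List Bool) : Prop :=
  β'.length ≤ α.length ∧ ((β' = β ++ [true] ∧ pair q β ∈ F) ∨ β' = β ++ [false])

theorem vpn_legal_of_reach {F : Lang} {q α β : List Bool}
    (h : Relation.ReflTransGen (VpnStep F q α) [] β) : Legal F q β := by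
  induction h with
  | refl => intro β γ h; simp at h
  | tail hab hbc ih =>
    rename_i b c
    intro β γ h
    obtain ⟨-, h1⟩ := hbc
    rcases List.eq_nil_or_concat γ with rfl | ⟨γ', x, rfl⟩
    · rcases h1 with ⟨h1, h2⟩ | h1
      · rw [h1] at h
        have := List.append_inj' h rfl
        rw [← this.1]
        exact h2
      · rw [h1] at h
        have := List.append_inj' h rfl
        simp at this
    · rcases h1 with ⟨h1, h2⟩ | h1
      · rw [h1, List.concat_eq_append, ← List.cons_append, ← List.append_assoc] at h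
        have := List.append_inj' h rfl
        exact ih β γ' this.1
      · rw [h1, List.concat_eq_append, ← List.cons_append, ← List.append_assoc] at h
        have := List.append_inj' h rfl
        exact ih β γ' this.1

theorem vpn_reach_of_legal {F : Lang} {q α : List Bool} (h : Legal F q α) :
    Relation.ReflTransGen (VpnStep F q α) [] α := by
  have key : ∀ i ≤ α.length, Relation.ReflTransGen (VpnStep F q α) [] (α.take i) := by
    intro i
    induction i with
    | zero => intro _; rw [List.take_zero]
    | succ i ih =>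
      intro hi
      refine (ih (by omega)).tail ⟨by rw [List.length_take]; omega, ?_⟩
      have h1 : α.take (i + 1) = α.take i ++ [α[i]] := by
        rw [List.take_add_one, List.getElem?_eq_getElem (by omega)]
        rfl
      rw [h1]
      cases hb : α[i] with
      | false => exact Or.inr rfl
      | true =>
        refine Or.inl ⟨rfl, h _ (α.drop (i + 1)) ?_⟩
        have h2 := List.take_append_drop i α
        rw [List.drop_eq_getElem_cons (by omega), hb] at h2
        exact h2.symm
  have := key α.length le_rfl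
  rwa [List.take_length] at this

theorem nexp_legal {F : Lang} (hF : F ∈ NEXPLang O) :
    NEXP O fun e : Fin 2 → List Bool => Legal F (e 0) (e 1) := by
  have h0 : NEXP O fun e : Fin 4 → List Bool => VpnStep F (e 0) (e 1) (e 2) (e 3) :=
    (nexp_lenLe 3 1).and (((nexp_snoc true 2 3).and (nexp_pair_mem hF 0 2)).or
      (nexp_snoc false 2 3))
  have h1 := nexp_reach (k := 2) (S := fun (e : Fin 2 → List Bool) a b =>
    VpnStep F (e 0) (e 1) a b) h0 (g := fun n => n) PolyB.id monotone_id (by
      rintro e a b ⟨h, -⟩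
      exact h.trans (len_le_size e 1))
  have h2 : NEXP O fun e : Fin 4 → List Bool => e 2 = [] ∧ e 3 = e 1 ∧
      Relation.ReflTransGen (VpnStep F (e 0) (e 1)) (e 2) (e 3) :=
    (nexp_const [] 2).and ((nexp_eq 3 1).and h1)
  have h3 : NEXP O fun e : Fin 2 → List Bool => ∃ s t : List Bool, s = [] ∧ t = e 1 ∧
      Relation.ReflTransGen (VpnStep F (e 0) (e 1)) s t := by
    refine nexp_ex2 (R := fun (e : Fin 2 → List Bool) s t => s = [] ∧ t = e 1 ∧
      Relation.ReflTransGen (VpnStep F (e 0) (e 1)) s t) h2
      (g := fun n => n) PolyB.id monotone_id ?_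
    rintro e s t ⟨rfl, rfl, -⟩
    exact ⟨Nat.zero_le _, len_le_size e 1⟩
  refine h3.congr fun e => ?_
  constructor
  · rintro ⟨s, t, rfl, rfl, h⟩
    exact vpn_legal_of_reach h
  · intro h
    exact ⟨[], e 1, rfl, rfl, vpn_reach_of_legal h⟩

theorem nexp_VP {F G : Lang} (hF : F ∈ NEXPLang O) (hG : Gᶜ ∈ NEXPLang O) {rho : ℕ → ℕ}
    (hr : Constr O rho) (hrp : PolyB rho) :
    NEXP O fun e : Fin 2 → List Bool => VP F G rho (e 0) (e 1) := by
  have h1 : NEXP O fun e : Fin 6 → List Bool =>
      (e 2).length = rho (e 0).length ∧ Legal F (e 0) (e 2) ∧ e 3 = (e 2).reverse ∧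
      ((e 4).length = (e 3).length ∧ val (e 4) ≤ val (e 3)) ∧ val (e 4) = (e 5).length ∧
      (e 5).length ≤ (e 1).length ∧ ((e 1).length ≤ 2 * (e 5).length + 0 ∨
        ((e 1).length ≤ 2 * (e 5).length + 1 ∧ pair (e 0) (e 2) ∈ Gᶜ)) := by
    refine (hr.nexp 0 2).and (NEXP.and ?_ ((nexp_rev 2 3).and ((nexp_valLe 4 3).and
      ((nexp_valLen 4 5).and ((nexp_lenLe 5 1).and ((vpn_linLe 2 0 1 5).or
        ((vpn_linLe 2 1 1 5).and (nexp_pair_mem hG 0 2))))))))
    refine ((nexp_legal hF).reindex ![0, 2]).congr fun e => ?_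
    simp
  obtain ⟨c, hc⟩ := hrp
  have h2 := nexp_exN (k := 2) (m := 4) (R := fun e z =>
      (z 0).length = rho (e 0).length ∧ Legal F (e 0) (z 0) ∧ z 1 = (z 0).reverse ∧
      ((z 2).length = (z 1).length ∧ val (z 2) ≤ val (z 1)) ∧ val (z 2) = (z 3).length ∧
      (z 3).length ≤ (e 1).length ∧ ((e 1).length ≤ 2 * (z 3).length + 0 ∨
        ((e 1).length ≤ 2 * (z 3).length + 1 ∧ pair (e 0) (z 0) ∈ Gᶜ))) h1
    (g := fun n => n ^ c + c + n) (((PolyB.id.pow c).add (PolyB.const c)).add PolyB.id)
    (fun m n h => Nat.add_le_add (Nat.add_le_add_right (Nat.pow_le_pow_left h c) c) h) (by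
      rintro e z ⟨h3, -, h4, ⟨h5, -⟩, -, h6, -⟩ j
      have l0 := len_le_size e 0
      have l1 := len_le_size e 1
      have b1 : rho (e 0).length ≤ size e ^ c + c :=
        (hc _).trans (Nat.add_le_add_right (Nat.pow_le_pow_left l0 c) c)
      have b2 := congrArg List.length h4
      rw [List.length_reverse] at b2
      show _ ≤ size e ^ c + c + size e
      fin_cases j
      · show (z 0).length ≤ _; omega
      · show (z 1).length ≤ _; omega
      · show (z 2).length ≤ _; omega
      · show (z 3).length ≤ _; omega)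
  refine h2.congr fun e => ?_
  constructor
  · rintro ⟨z, h3, h4, h5, ⟨h6, h7⟩, h8, h9, h10⟩
    refine ⟨z 0, h3, h4, ?_⟩
    rw [h5] at h7
    rcases h10 with h10 | ⟨h10, h11⟩
    · left; omega
    · right; exact ⟨by omega, h11⟩
  · rintro ⟨α, h3, h4, h5⟩
    set N := min (val α.reverse) (e 1).length with hN
    have hlt : N < 2 ^ α.reverse.length := lt_of_le_of_lt (min_le_left _ _) (val_lt _)
    refine ⟨![α, α.reverse, bits α.reverse.length N, List.replicate N true], ?_⟩
    simp only [Matrix.cons_val_zero, Matrix.cons_val_one, Matrix.cons_val, length_bits,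
      List.length_replicate]
    refine ⟨h3, h4, trivial, ⟨trivial, ?_⟩, ?_, ?_, ?_⟩
    · rw [val_bits hlt]; exact min_le_left _ _
    · rw [val_bits hlt]
    · exact min_le_right _ _
    · rcases h5 with h5 | ⟨h5, h6⟩
      · left; omega
      · right; exact ⟨by omega, h6⟩

end Pool.Agent.LibQry85
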