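import Pool.Agent.LibBHN.Count
import Pool.Agent.LibDual85.Rev
import Pool.Agent.LibQry85.Defs

/-! Task LQ-5: reached blocks, in the class. -/

namespace Pool.Agent.LibQry85

open Function Pool.Agent.LibNexp Pool.Agent.LibBHN Pool.Agent.LibDual85

variable {O : List Bool → Bool}

/-- `|e i| ≤ c |e j| + d` -/
private theorem reachN_linLe (c d : ℕ) {k : ℕ} (i j : Fin k) :
    NEXP O fun e : Fin k → List Bool => (e i).length ≤ c * (e j).length + d := by
  have h1 : NEXP O fun e : Fin 3 → List Bool => (e 2).length = c * (e 1).length + d ∧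
      (e 0).length ≤ (e 2).length := (nexp_lin c d 1 2).and (nexp_lenLe 0 2)
  have h2 : NEXP O fun e : Fin 2 → List Bool => ∃ z : List Bool,
      z.length = c * (e 1).length + d ∧ (e 0).length ≤ z.length := by
    refine nexp_ex (R := fun (e : Fin 2 → List Bool) z => z.length = c * (e 1).length + d ∧
      (e 0).length ≤ z.length) h1 (g := fun n => c * n + d)
      (((PolyB.const c).mul PolyB.id).add (PolyB.const d)) ?_
    rintro e z ⟨h, -⟩
    rw [h]
    exact Nat.add_le_add_right (Nat.mul_le_mul_left _ (len_le_size e 1)) _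
  have h3 : NEXP O fun e : Fin 2 → List Bool => (e 0).length ≤ c * (e 1).length + d := by
    refine h2.congr fun e => ?_
    constructor
    · rintro ⟨z, h, h'⟩
      omega
    · intro h
      exact ⟨List.replicate (c * (e 1).length + d) true, by simp, by simpa using h⟩
  refine (h3.reindex ![i, j]).congr fun e => ?_
  simp

theorem nexp_reached {K : Lang} (hK : K ∈ NEXPLang O) :
    NEXP O fun e : Fin 2 → List Bool => Reached K (e 0) (e 1) := by
  have hc : NEXP O fun e : Fin 1 → List Bool => ∃ n, (e 0).length = n + 1 ∧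
      val (e 0) ≤ cnt n (fun y => y ∈ K) :=
    nexp_count (k := 0) (R := fun _ y => y ∈ K) (nexp_mem hK (Fin.last 0))
  -- q, t | n', u, z, y, I, z', w1, w2, W
  have h1 : NEXP O fun e : Fin 11 → List Bool =>
      (e 8 = e 3 ++ e 4 ∧ e 9 = e 8 ++ e 5 ∧ e 0 = pair (e 2) (e 9)) ∧
      ((e 4).length = 1 * (e 2).length + 1 ∧ (e 3).length = (e 4).length * (e 6).length) ∧
      (val (e 1) = (e 10).length ∧ (e 10).length ≤ 1 * (e 6).length + 1) ∧
      Suc (e 4) (e 7) ∧ (∃ n, (e 7).length = n + 1 ∧ val (e 7) ≤ cnt n (fun y => y ∈ K)) := by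
    refine ((nexp_append 3 4 8).and ((nexp_append 8 5 9).and (nexp_pair 2 9 0))).and
      (((nexp_lin 1 1 2 4).and ?_).and (((nexp_valLen 1 10).and (reachN_linLe 1 1 10 6)).and
      ((nexp_suc 4 7).and ?_)))
    · refine ((nexp_mul (O := O)).reindex ![4, 6, 3]).congr fun e => ?_
      simp
    · refine (hc.reindex ![7]).congr fun e => ?_
      simp
  have h2 := nexp_exN (k := 2) (m := 9) (R := fun e z =>
      (z 6 = z 1 ++ z 2 ∧ z 7 = z 6 ++ z 3 ∧ e 0 = pair (z 0) (z 7)) ∧
      ((z 2).length = 1 * (z 0).length + 1 ∧ (z 1).length = (z 2).length * (z 4).length) ∧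
      (val (e 1) = (z 8).length ∧ (z 8).length ≤ 1 * (z 4).length + 1) ∧
      Suc (z 2) (z 5) ∧ (∃ n, (z 5).length = n + 1 ∧ val (z 5) ≤ cnt n (fun y => y ∈ K))) h1
    (g := fun n => n + 1) (PolyB.id.add (PolyB.const 1)) (fun m n h => by simp only; omega) (by
      rintro e z ⟨⟨a1, a2, a3⟩, ⟨a4, a5⟩, ⟨-, a6⟩, a7, -⟩ j
      have l0 := len_le_size e 0
      have b1 := congrArg List.length a1
      have b2 := congrArg List.length a2
      have b3 := congrArg List.length a3
      rw [length_pair] at b3
      rw [List.length_append] at b1 b2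
      have b7 : (z 5).length = (z 2).length := a7.1
      have b5 : (z 4).length ≤ (z 1).length := by
        rw [a5, a4]
        nlinarith [Nat.zero_le ((z 0).length * (z 4).length)]
      show _ ≤ size e + 1
      fin_cases j
      · show (z 0).length ≤ _; omega
      · show (z 1).length ≤ _; omega
      · show (z 2).length ≤ _; omega
      · show (z 3).length ≤ _; omega
      · show (z 4).length ≤ _; omega
      · show (z 5).length ≤ _; omega
      · show (z 6).length ≤ _; omega
      · show (z 7).length ≤ _; omega
      · show (z 8).length ≤ _; omega)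
  refine h2.congr fun e => ?_
  constructor
  · rintro ⟨z, ⟨a1, a2, a3⟩, ⟨a4, a5⟩, ⟨a6, a6'⟩, a7, n, a8, a9⟩
    refine ⟨z 0, z 1, z 2, z 3, z 4, z 5, ?_, by omega, a5, by omega, a7, ?_⟩
    · rw [a3, a2, a1]
    · have b7 : (z 5).length = (z 2).length := a7.1
      have : n = (z 0).length := by omega
      rw [← this]
      exact a9
  · rintro ⟨n', u, z, y, I, z', a1, a2, a3, a4, a5, a6⟩
    refine ⟨![n', u, z, y, I, z', u ++ z, u ++ z ++ y, List.replicate (val (e 1)) true],
      ⟨rfl, rfl, a1⟩, ⟨?_, a3⟩, ⟨?_, ?_⟩, a5, n'.length, ?_, a6⟩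
    · show z.length = 1 * n'.length + 1
      omega
    · show val (e 1) = (List.replicate (val (e 1)) true).length
      simp
    · show (List.replicate (val (e 1)) true).length ≤ 1 * I.length + 1
      simpa using a4
    · show z'.length = n'.length + 1
      have : z'.length = z.length := a5.1
      omega

theorem reached_iff {K : Lang} {n' Y t : List Bool} : Reached K (pair n' Y) t ↔
    Rch (n'.length + 1) (cnt n'.length fun y => y ∈ K) Y (val t) := by
  constructor
  · rintro ⟨n'', u, z, y, I, z', a1, a2, a3, a4, a5, a6⟩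
    obtain ⟨rfl, rfl⟩ := pair_injective a1
    refine ⟨I.length, a4, ?_, ?_⟩
    · rw [List.length_append, List.length_append, a3, a2]
      omega
    · have h1 : blk (n'.length + 1) I.length (u ++ z ++ y) = z := by
        unfold blk
        rw [← a2, ← a3, List.append_assoc, List.drop_left, List.take_left]
      rw [h1]
      have := a5.2
      omega
  · rintro ⟨i, h1, h2, h3⟩
    set b := n'.length + 1 with hb
    have hlen : (blk b i Y).length = b := by
      unfold blk
      rw [List.length_take, List.length_drop]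
      omega
    have hcnt := cnt_le n'.length (fun y => y ∈ K)
    have hpow : (2 : ℕ) ^ b = 2 * 2 ^ n'.length := by rw [hb, pow_succ, mul_comm]
    have hv : val (blk b i Y) + 1 < 2 ^ b := by
      have := Nat.two_pow_pos n'.length
      omega
    refine ⟨n', Y.take (b * i), blk b i Y, Y.drop (b * i + b), List.replicate i true,
      bits b (val (blk b i Y) + 1), ?_, hlen, ?_, ?_, ⟨?_, ?_⟩, ?_⟩
    · congr 1
      unfold blk
      rw [List.append_assoc, ← List.drop_drop, List.take_append_drop, List.take_append_drop]
    · rw [List.length_take, hlen, List.length_replicate]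
      omega
    · rw [List.length_replicate]
      exact h1
    · rw [length_bits, hlen]
    · rw [val_bits hv]
    · rw [val_bits hv]
      omega

end Pool.Agent.LibQry85
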