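import Pool.Agent.LibBHN.PNexp
import Pool.Agent.LibDual85.Search
import Pool.Agent.LibQry85.ReachN

/-! Task LQ-6: the language of the chain. -/

namespace Pool.Agent.LibQry85

open Function Pool.Agent.LibNexp Pool.Agent.LibBHN Pool.Agent.LibDual85

variable {O : List Bool → Bool}

/-- Protocols with the last answer as output, any number of rounds. -/
theorem pqueryF_of_protocol0 {D : Lang} (hD : D ∈ NEXPLang O) (R : ℕ → ℕ) :
    {x | (ans D x (R x.length)).getLast? = some true} ∈ PQueryF (NEXPLang O) R := by
  refine ⟨D, hD, fun x => x, id_mem, _, last_mem, fun x => ?_⟩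
  have key : ∀ i, answers (fun x => x) D x i = ans D x i := by
    intro i
    induction i with
    | zero => rfl
    | succ i ih => rw [answers, ans, ih]
  show (ans D x (R x.length)).getLast? = some true ↔
    (pair x (answers (fun x => x) D x (R x.length))).getLast? = some true
  have h2 : ∀ (α : List Bool) (b : Bool), (pair x (α ++ [b])).getLast? = some b := by
    intro α b
    rw [pair, ← List.append_assoc, List.getLast?_concat]
  rw [key]
  rcases Nat.eq_zero_or_pos (R x.length) with h0 | h0
  · rw [h0, ans]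
    have h3 : (pair x []).getLast? = some false := by
      rw [pair, List.append_nil]
      have : (x.flatMap fun b => [b, b]) ++ [true, false] =
          ((x.flatMap fun b => [b, b]) ++ [true]) ++ [false] := by simp
      rw [this, List.getLast?_concat]
    rw [h3]
    simp
  · obtain ⟨k, hk⟩ : ∃ k, R x.length = k + 1 := ⟨R x.length - 1, by omega⟩
    rw [hk, ans, h2, List.getLast?_concat]

theorem exists_chainLang {K : Lang} (hK : K ∈ NEXPLang O) {R : ℕ → ℕ} (hr : Constr O R)
    (hrp : PolyB R) : ∃ Lc ∈ PQueryF (NEXPLang O) R,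
      ∀ (n' Y : List Bool) (m : ℕ), 1 ≤ R (pair n' Y).length → m < 2 ^ (R (pair n' Y).length) →
        (∀ j, 1 ≤ j → (Rch (n'.length + 1) (cnt n'.length fun y => y ∈ K) Y j ↔ j ≤ m)) →
        (pair n' Y ∈ Lc ↔ Odd m) := by
  classical
  have hthr := nexp_thr (O := O) (lam := R) (hr.nexp 0 1) hrp
  have h1 : NEXP O fun e : Fin 3 → List Bool =>
      ((e 1).length < R (e 0).length ∧ e 2 = thr (R (e 0).length) (e 1)) ∧
      Reached K (e 0) (e 2) := by
    refine hthr.and (((nexp_reached hK).reindex ![0, 2]).congr fun e => ?_)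
    simp
  obtain ⟨c, hc⟩ := hrp
  have h2 : NEXP O fun e : Fin 2 → List Bool => ∃ t,
      ((e 1).length < R (e 0).length ∧ t = thr (R (e 0).length) (e 1)) ∧
      Reached K (e 0) t := by
    refine nexp_ex (k := 2) (R := fun e t =>
      ((e 1).length < R (e 0).length ∧ t = thr (R (e 0).length) (e 1)) ∧
      Reached K (e 0) t) h1 (g := fun n => n ^ c + c + 2)
      ((PolyB.id.comp_pow c).add (PolyB.const 2)) ?_
    rintro e t ⟨⟨h2, rfl⟩, -⟩
    rw [length_thr h2]
    have l0 := len_le_size e 0
    have b1 : R (e 0).length ≤ size e ^ c + c :=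
      (hc _).trans (Nat.add_le_add_right (Nat.pow_le_pow_left l0 c) c)
    show _ ≤ size e ^ c + c + 2
    omega
  obtain ⟨D, hD, hDR⟩ := rel_of_nexp (C := fun x α => ∃ t,
      (α.length < R x.length ∧ t = thr (R x.length) α) ∧ Reached K x t) h2
  refine ⟨{x | (ans D x (R x.length)).getLast? = some true}, pqueryF_of_protocol0 hD R, ?_⟩
  intro n' Y m hR1 hm hj
  set x := pair n' Y with hx
  set l := R x.length with hl
  rw [Set.mem_ofPred_eq]
  have hs : ∀ i < l, ans D x (i + 1) = ans D x i ++
      [decide (val (thr l (ans D x i)) ≤ m)] := by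
    intro i hi
    rw [ans]
    congr 2
    have h3 : (ans D x i).length < l := by rw [length_ans]; exact hi
    have h4 : 1 ≤ val (thr l (ans D x i)) := by
      rw [val_thr]
      have := Nat.two_pow_pos (l - 1 - (ans D x i).length)
      nlinarith
    have h5 : pair x (ans D x i) ∈ D ↔ val (thr l (ans D x i)) ≤ m := by
      rw [hDR, ← hj _ h4, ← reached_iff]
      constructor
      · rintro ⟨t, ⟨-, rfl⟩, h6⟩
        exact h6
      · intro h6
        exact ⟨_, ⟨h3, rfl⟩, h6⟩
    simp only [h5]
  obtain ⟨h3, h4⟩ := search hm (a := ans D x) rfl hs l le_rfl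
  rw [Nat.sub_self, pow_zero, Nat.div_one] at h4
  have h5 : ans D x l = ans D x (l - 1) ++
      [decide (val (thr l (ans D x (l - 1))) ≤ m)] := by
    have := hs (l - 1) (by omega)
    rwa [Nat.sub_add_cancel (by omega)] at this
  rw [← hl, h5, List.getLast?_concat]
  rw [h5, List.reverse_append] at h4
  simp only [List.reverse_cons, List.reverse_nil, List.nil_append, List.cons_append, val] at h4
  simp only [Option.some.injEq, decide_eq_true_eq]
  by_cases h6 : val (thr l (ans D x (l - 1))) ≤ m
  · rw [decide_eq_true h6] at h4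
    refine ⟨fun _ => ⟨val (ans D x (l - 1)).reverse, ?_⟩, fun _ => h6⟩
    rw [← h4, Bool.toNat_true]
    ring
  · rw [decide_eq_false h6] at h4
    refine ⟨fun h => absurd h h6, fun h => ?_⟩
    exfalso
    rw [← h4, Bool.toNat_false, zero_add] at h
    exact (Nat.not_odd_iff_even.2 (even_two_mul _)) h

end Pool.Agent.LibQry85
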