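import Pool.Agent.LibBHN.Misc
import Pool.Agent.LibQry85.Defs

/-! Task LQ-11: the length of the questions. -/

namespace Pool.Agent.LibQry85

open Function Pool.Agent.LibNexp Pool.Agent.LibBHN Pool.Agent.LibDual85

variable {O : List Bool → Bool}

private theorem ell_key {r : ℕ → ℕ} {M D : ℕ}
    (hr : ∀ n, (M + 1) * r n ≤ M * Nat.log 2 (n + 1) + D) (n : ℕ) :
    2 ^ r (2 * n + 2 + (2 ^ (M + D + 2) * (n + 1)) ^ (M + 1)) ≤
      2 ^ (M + D) * (2 ^ (M + D + 2) * (n + 1)) ^ M := by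
  have hA : 4 ≤ 2 ^ (M + D + 2) := by
    calc 4 = 2 ^ 2 := by norm_num
      _ ≤ 2 ^ (M + D + 2) := Nat.pow_le_pow_right (by norm_num) (by omega)
  have hZ : 4 * (n + 1) ≤ 2 ^ (M + D + 2) * (n + 1) := Nat.mul_le_mul_right _ hA
  generalize hZdef : 2 ^ (M + D + 2) * (n + 1) = Z at hZ ⊢
  have hZZ : Z ≤ Z ^ (M + 1) := by
    calc Z = Z ^ 1 := (pow_one Z).symm
      _ ≤ Z ^ (M + 1) := Nat.pow_le_pow_right (by omega) (by omega)
  generalize hl : 2 * n + 2 + Z ^ (M + 1) = l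
  have hl1 : l + 1 ≤ 2 * Z ^ (M + 1) := by omega
  have h1 : (2 ^ r l) ^ (M + 1) ≤ (2 ^ (M + D) * Z ^ M) ^ (M + 1) := by
    calc (2 ^ r l) ^ (M + 1) = 2 ^ ((M + 1) * r l) := by rw [← pow_mul, mul_comm]
      _ ≤ 2 ^ (M * Nat.log 2 (l + 1) + D) := Nat.pow_le_pow_right (by norm_num) (hr l)
      _ = (2 ^ Nat.log 2 (l + 1)) ^ M * 2 ^ D := by rw [pow_add, ← pow_mul, mul_comm M]
      _ ≤ (l + 1) ^ M * 2 ^ D :=
          Nat.mul_le_mul_right _ (Nat.pow_le_pow_left (Nat.pow_log_le_self 2 (by omega)) _)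
      _ ≤ (2 * Z ^ (M + 1)) ^ M * 2 ^ D :=
          Nat.mul_le_mul_right _ (Nat.pow_le_pow_left hl1 _)
      _ = 2 ^ (M + D) * (Z ^ M) ^ (M + 1) := by
          rw [mul_pow, ← pow_mul Z (M + 1) M, ← pow_mul Z M (M + 1), mul_comm (M + 1) M,
            pow_add 2 M D]
          ring
      _ ≤ (2 ^ (M + D)) ^ (M + 1) * (Z ^ M) ^ (M + 1) := by
          apply Nat.mul_le_mul_right
          calc 2 ^ (M + D) = (2 ^ (M + D)) ^ 1 := (pow_one _).symm
            _ ≤ (2 ^ (M + D)) ^ (M + 1) :=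
              Nat.pow_le_pow_right (Nat.pow_pos (by norm_num)) (by omega)
      _ = (2 ^ (M + D) * Z ^ M) ^ (M + 1) := by rw [mul_pow]
  exact (Nat.pow_le_pow_iff_left (by omega)).1 h1

theorem exists_ell (O : List Bool → Bool) {r : ℕ → ℕ} {M D : ℕ}
    (hr : ∀ n, (M + 1) * r n ≤ M * Nat.log 2 (n + 1) + D) :
    ∃ ell : ℕ → ℕ, Constr O ell ∧ PolyB ell ∧
      (∀ n, (n + 1) * 2 ^ (r (2 * n + 2 + ell n) + 1) ≤ ell n) ∧
      ∃ c : ℕ, ∀ n, r (2 * n + 2 + ell n) + 1 ≤ M * Nat.log 2 (n + 1) + c := by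
  refine ⟨fun n => (2 ^ (M + D + 2) * (n + 1)) ^ (M + 1), ?_, ?_, ?_, ?_⟩
  · apply constr_of_nexp
    generalize 2 ^ (M + D + 2) = A
    have h1 : NEXP O fun e : Fin 3 → List Bool =>
        (e 2).length = A * (e 0).length + A ∧ (e 1).length = (e 2).length ^ (M + 1) + 0 :=
      (nexp_lin A A 0 2).and (nexp_powAdd (M + 1) 0 2 1)
    have h2 := nexp_ex (R := fun (e : Fin 2 → List Bool) z =>
      z.length = A * (e 0).length + A ∧ (e 1).length = z.length ^ (M + 1) + 0) h1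
      (g := fun n => A * n + A) (((PolyB.const A).mul PolyB.id).add (PolyB.const A)) (by
        rintro e z ⟨h3, -⟩
        have h4 := Nat.mul_le_mul_left A (len_le_size e 0)
        show _ ≤ A * size e + A
        omega)
    refine h2.congr fun e => ?_
    constructor
    · rintro ⟨z, h3, h4⟩
      show (e 1).length = (A * ((e 0).length + 1)) ^ (M + 1)
      rw [h4, h3, add_zero]
      ring
    · intro h3
      refine ⟨List.replicate (A * (e 0).length + A) true, by simp, ?_⟩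
      rw [List.length_replicate, add_zero]
      have h4 : (e 1).length = (A * ((e 0).length + 1)) ^ (M + 1) := h3
      rw [h4]
      ring
  · exact ((PolyB.const (2 ^ (M + D + 2))).mul PolyB.id.succ).pow (M + 1)
  · intro n
    have h1 := ell_key hr n
    show (n + 1) * 2 ^ (r (2 * n + 2 + (2 ^ (M + D + 2) * (n + 1)) ^ (M + 1)) + 1) ≤
      (2 ^ (M + D + 2) * (n + 1)) ^ (M + 1)
    calc (n + 1) * 2 ^ (r (2 * n + 2 + (2 ^ (M + D + 2) * (n + 1)) ^ (M + 1)) + 1)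
        = ((n + 1) * 2) * 2 ^ r (2 * n + 2 + (2 ^ (M + D + 2) * (n + 1)) ^ (M + 1)) := by
          rw [pow_succ]; ring
      _ ≤ ((n + 1) * 2) * (2 ^ (M + D) * (2 ^ (M + D + 2) * (n + 1)) ^ M) :=
          Nat.mul_le_mul_left _ h1
      _ = (2 ^ (M + D + 1) * (n + 1)) * (2 ^ (M + D + 2) * (n + 1)) ^ M := by
          rw [pow_succ 2 (M + D)]; ring
      _ ≤ (2 ^ (M + D + 2) * (n + 1)) * (2 ^ (M + D + 2) * (n + 1)) ^ M := by
          apply Nat.mul_le_mul_right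
          apply Nat.mul_le_mul_right
          exact Nat.pow_le_pow_right (by norm_num) (by omega)
      _ = (2 ^ (M + D + 2) * (n + 1)) ^ (M + 1) := by rw [pow_succ]; ring
  · refine ⟨M + D + M * (M + D + 3) + 1, fun n => ?_⟩
    have h1 := ell_key hr n
    show r (2 * n + 2 + (2 ^ (M + D + 2) * (n + 1)) ^ (M + 1)) + 1 ≤ _
    have h2 : n + 1 ≤ 2 ^ (Nat.log 2 (n + 1) + 1) := (Nat.lt_pow_succ_log_self (by norm_num) _).le
    have h3 : 2 ^ (M + D) * (2 ^ (M + D + 2) * (n + 1)) ^ M ≤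
        2 ^ (M + D + (M + D + 2 + (Nat.log 2 (n + 1) + 1)) * M) := by
      rw [pow_add 2 (M + D) ((M + D + 2 + (Nat.log 2 (n + 1) + 1)) * M),
        pow_mul 2 (M + D + 2 + (Nat.log 2 (n + 1) + 1)) M]
      apply Nat.mul_le_mul_left
      apply Nat.pow_le_pow_left
      rw [pow_add 2 (M + D + 2) (Nat.log 2 (n + 1) + 1)]
      exact Nat.mul_le_mul_left _ h2
    have h4 := (Nat.pow_le_pow_iff_right (by norm_num : 1 < 2)).1 (h1.trans h3)
    have h5 : (M + D + 2 + (Nat.log 2 (n + 1) + 1)) * M =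
        M * Nat.log 2 (n + 1) + M * (M + D + 3) := by ring
    rw [h5] at h4
    omega

end Pool.Agent.LibQry85
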