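import Pool.Agent.LibQry85.Blocks

/-! Task LQ-2: the chain of worlds. -/

namespace Pool.Agent.LibQry85

open Function Pool.Agent.LibNexp Pool.Agent.LibBHN Pool.Agent.LibDual85

/-- Some case number distinguishes the true world `T` from the smaller worlds. -/
theorem chain {b ell T V : ℕ} (hb : 1 ≤ b) (hT : T < 2 ^ b) (hV : 1 ≤ V) (hVl : b * V ≤ ell)
    {f : List Bool → ℕ} (hf : ∀ (Y : List Bool) (m : ℕ), Y.length = ell → m ≤ V →
      (∀ j, 1 ≤ j → (Rch b T Y j ↔ j ≤ m)) → f Y ≤ V ∧ Odd (f Y + m)) :
    ∃ i < V, ∀ s : List Bool, s.length = b → val s ≤ T → (CaseAt b ell f i s ↔ val s = T) := by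
  classical
  have hvT : val (bits b T) = T := val_bits hT
  have hlT : (bits b T).length = b := length_bits b T
  have hP0 : CaseAt b ell f 0 (bits b T) := by
    have hbV : b * 1 ≤ b * V := Nat.mul_le_mul_left b hV
    refine ⟨[], by simp, Or.inl rfl, ell - b * (0 + 1), by omega, fun c hc habove => ?_⟩
    rw [hvT] at habove
    have h1 := hf ([] ++ bits b T ++ c) 0 (by
      rw [List.length_append, List.length_append, List.length_nil, hlT, hc]; omega) (Nat.zero_le _)
      (fun j hj => rch_ge hb (by simp) hlT (by rw [hvT]) (Or.inl rfl)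
        (fun k hk => (habove k hk).le) j hj)
    obtain ⟨r, hr⟩ := h1.2
    omega
  -- the largest case number of the true world
  obtain ⟨i, hiV, hPi, hmax⟩ : ∃ i < V, CaseAt b ell f i (bits b T) ∧
      ∀ i' < V, CaseAt b ell f i' (bits b T) → i' ≤ i := by
    let S := (Finset.range V).filter (fun i => CaseAt b ell f i (bits b T))
    have hS : S.Nonempty := ⟨0, Finset.mem_filter.2 ⟨Finset.mem_range.2 (by omega), hP0⟩⟩
    obtain ⟨i, hi, hmax⟩ := Finset.exists_max_image S id hS
    have hi' := Finset.mem_filter.1 hi
    exact ⟨i, Finset.mem_range.1 hi'.1, hi'.2, fun i' h1 h2 =>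
      hmax i' (Finset.mem_filter.2 ⟨Finset.mem_range.2 h1, h2⟩)⟩
  refine ⟨i, hiV, fun s hs hsT => ⟨fun hcase => ?_, fun hval => ?_⟩⟩
  · by_contra hne
    have hlt : val s < T := lt_of_le_of_ne hsT hne
    obtain ⟨a, ha, hpre, m, hm, hall⟩ := hcase
    rcases Nat.lt_or_ge (i + 1) V with hi1 | hi1
    · -- the next case number fails for the true world
      have hnot : ¬ CaseAt b ell f (i + 1) (bits b T) := fun h => by
        have := hmax (i + 1) hi1 h
        omega
      have hb2 : b * (i + 1 + 1) ≤ ell := le_trans (Nat.mul_le_mul_left b hi1) hVl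
      have halen : (a ++ s).length = b * (i + 1) := by
        rw [List.length_append, ha, hs]; ring
      have hpre' : Pre b T (a ++ s) := Or.inr ⟨a, s, rfl, hs, hlt⟩
      have hex : ∃ c', c'.length = ell - b * (i + 1 + 1) ∧ Above b T c' ∧
          f (a ++ s ++ bits b T ++ c') < i + 1 + 1 := by
        by_contra hcon
        push Not at hcon
        apply hnot
        refine ⟨a ++ s, halen, by rw [hvT]; exact hpre', ell - b * (i + 1 + 1), by omega,
          fun c' hc' habove => ?_⟩
        rw [hvT] at habove
        exact hcon c' hc' habove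
      obtain ⟨c', hc', habove, hlt'⟩ := hex
      have e2 : b * (i + 1 + 1) = b * (i + 1) + b := by ring
      have h1 := hf (a ++ s ++ bits b T ++ c') (i + 1) (by
        rw [List.length_append, List.length_append, halen, hlT, hc']; omega) hi1.le
        (fun j hj => rch_ge hb halen hlT (by rw [hvT]) hpre'
          (fun k hk => (habove k hk).le) j hj)
      have h2 := hall (bits b T ++ c') (by
        rw [List.length_append, hlT, hc']; omega) (above_append (m := 0) hb hT hlt habove)
      rw [← List.append_assoc] at h2
      obtain ⟨r, hr⟩ := h1.2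
      omega
    · -- the last case number
      have hiV' : i + 1 = V := by omega
      have hones : ∀ k, b * k + b ≤ (ones m).length → T ≤ val (blk b k (ones m)) := by
        intro k hk
        have := val_blk_ones (b := b) (k := k) (m := m) (by simpa using hk)
        omega
      have h1 := hf (a ++ s ++ ones m) V (by
        rw [List.length_append, List.length_append, ha, hs, List.length_replicate]
        have e2 : b * (i + 1) = b * i + b := by ring
        omega) le_rfl
        (fun j _ => by rw [← hiV']; exact rch_lt hb ha hs hlt hones j)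
      have h2 := hall (ones m) (List.length_replicate ..) (fun k hk => by
        have := hones k hk
        omega)
      obtain ⟨h3, r, hr⟩ := h1
      omega
  · have : s = bits b T := val_inj (by rw [hs, hlT]) (by rw [hval, hvT])
    rw [this]
    exact hPi

end Pool.Agent.LibQry85
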