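import Pool.Agent.LibQry85.CertI
import Pool.Agent.LibQry85.ChainL

/-! Task LQ-10: the meaning of the relation. -/

namespace Pool.Agent.LibQry85

open Function Pool.Agent.LibNexp Pool.Agent.LibBHN Pool.Agent.LibDual85

/-- For every length there is a case number which works. -/
theorem exists_case {K F G Lc : Lang} {rho ell : ℕ → ℕ} {n : ℕ}
    (hLc : ∀ (Y : List Bool) (m : ℕ), Y.length = ell n →
        m < 2 ^ (rho (2 * n + 2 + ell n) + 1) →
        (∀ j, 1 ≤ j → (Rch (n + 1) (cnt n fun y => y ∈ K) Y j ↔ j ≤ m)) →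
        (pair (ones n) Y ∈ Lc ↔ Odd m))
    (hFG : ∀ q, q ∈ Lc ↔ pair q (kans F (fun β => β) q (rho q.length)) ∈ G)
    (hell : (n + 1) * 2 ^ (rho (2 * n + 2 + ell n) + 1) ≤ ell n) :
    ∃ i < 2 ^ (rho (2 * n + 2 + ell n) + 1), ∀ x a : List Bool, x.length = n → val a = i →
      (RelC K F G rho ell x a ↔ x ∉ K) := by
  set R := rho (2 * n + 2 + ell n) + 1 with hR
  set T := cnt n fun y => y ∈ K with hTdef
  have hT1 : T ≤ 2 ^ n := cnt_le n _
  have hT : T < 2 ^ (n + 1) := by
    rw [pow_succ]
    have : 0 < 2 ^ n := by positivity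
    omega
  have h2 : 2 ≤ 2 ^ R := by
    rw [hR, pow_succ]
    have : 0 < 2 ^ rho (2 * n + 2 + ell n) := by positivity
    omega
  have hlen : ∀ Y : List Bool, Y.length = ell n →
      (pair (ones n) Y).length = 2 * n + 2 + ell n := by
    intro Y hY
    rw [length_pair, List.length_replicate, hY]
    try omega
  obtain ⟨i, hi, h⟩ := chain (b := n + 1) (ell := ell n) (T := T) (V := 2 ^ R - 1)
    (f := fun Y => vprime F G rho (pair (ones n) Y)) (by omega) hT (by omega)
    ((Nat.mul_le_mul_left _ (Nat.sub_le _ _)).trans hell) (by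
      intro Y m hY hm hj
      have h3 := vprime_lt F G rho (pair (ones n) Y)
      rw [hlen Y hY, ← hR] at h3
      have h4 := hLc Y m hY (by omega) hj
      have h5 := odd_vprime F G rho (pair (ones n) Y)
      rw [← hFG, h4] at h5
      refine ⟨by show vprime F G rho (pair (ones n) Y) ≤ _; omega, ?_⟩
      show Odd (vprime F G rho (pair (ones n) Y) + m)
      rw [Nat.odd_add, h5, Nat.not_odd_iff_even])
  refine ⟨i, by omega, ?_⟩
  rintro x a hx ha
  unfold RelC
  simp only [cert_iff, hx, ha]
  constructor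
  · rintro ⟨n', I, s, ⟨rfl, hI⟩, h3, h4, h5⟩ hxK
    have h6 := cnt_mem (P := fun y => y ∈ K) hxK
    rw [hx, ← hTdef] at h6
    have h7 : val s < T := by omega
    rw [List.length_replicate, ← hI, h4] at h3
    have := (h s h4 h7.le).1 h3
    omega
  · intro hxK
    have h6 := cnt_notMem (P := fun y => y ∈ K) (n := n) hxK
    rw [← hTdef] at h6
    have hs : (bits (n + 1) T).length = n + 1 := by simp
    have hv : val (bits (n + 1) T) = T := val_bits hT
    refine ⟨ones n, ones i, bits (n + 1) T, ⟨rfl, by simp⟩, ?_, hs, by rw [h6, hv]⟩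
    have h7 := (h _ hs hv.le).2 hv
    rw [List.length_replicate, List.length_replicate, hs]
    exact h7

end Pool.Agent.LibQry85
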