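import Pool.Agent.LibQry85.VPnexp

/-! Task LQ-7: certificates, in the class. -/

namespace Pool.Agent.LibQry85

open Function Pool.Agent.LibNexp Pool.Agent.LibBHN Pool.Agent.LibDual85

variable {O : List Bool → Bool}

theorem nexp_pre : NEXP O fun e : Fin 2 → List Bool => Pre (e 0).length (val (e 0)) (e 1) := by
  have h1 : NEXP O fun e : Fin 4 → List Bool => e 1 = e 2 ++ e 3 ∧
      ((e 3).length = (e 0).length ∧ val (e 3) < val (e 0)) :=
    (nexp_append 2 3 1).and (nexp_valLt 3 0)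
  have h2 : NEXP O fun e : Fin 2 → List Bool => ∃ a z : List Bool, e 1 = a ++ z ∧
      (z.length = (e 0).length ∧ val z < val (e 0)) := by
    refine nexp_ex2 (R := fun (e : Fin 2 → List Bool) a z => e 1 = a ++ z ∧
      (z.length = (e 0).length ∧ val z < val (e 0))) h1 (g := fun n => n) PolyB.id monotone_id ?_
    rintro e a z ⟨h, -⟩
    have l1 := len_le_size e 1
    rw [h, List.length_append] at l1
    show _ ≤ size e ∧ _ ≤ size e
    omega
  exact (nexp_const [] 1).or h2

theorem nexp_low : NEXP O fun e : Fin 2 → List Bool => Low (e 0) (e 1) := by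
  -- s, c | u, z, y, I, w
  have h1 : NEXP O fun e : Fin 7 → List Bool => (e 6 = e 2 ++ e 3 ∧ e 1 = e 6 ++ e 4) ∧
      ((e 3).length = (e 0).length ∧ val (e 3) ≤ val (e 0)) ∧
      (e 2).length = (e 3).length * (e 5).length ∧ (e 5).length ≤ (e 2).length := by
    refine ((nexp_append 2 3 6).and (nexp_append 6 4 1)).and ((nexp_valLe 3 0).and
      (NEXP.and ?_ (nexp_lenLe 5 2)))
    refine ((nexp_mul (O := O)).reindex ![3, 5, 2]).congr fun e => ?_
    simp
  have h2 := nexp_exN (k := 2) (m := 5) (R := fun e z =>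
      (z 4 = z 0 ++ z 1 ∧ e 1 = z 4 ++ z 2) ∧
      ((z 1).length = (e 0).length ∧ val (z 1) ≤ val (e 0)) ∧
      (z 0).length = (z 1).length * (z 3).length ∧ (z 3).length ≤ (z 0).length) h1
    (g := fun n => n) PolyB.id monotone_id (by
      rintro e z ⟨⟨a1, a2⟩, -, -, a3⟩ j
      have l1 := len_le_size e 1
      have b1 := congrArg List.length a1
      have b2 := congrArg List.length a2
      rw [List.length_append] at b1 b2
      show _ ≤ size e
      fin_cases j
      · show (z 0).length ≤ _; omega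
      · show (z 1).length ≤ _; omega
      · show (z 2).length ≤ _; omega
      · show (z 3).length ≤ _; omega
      · show (z 4).length ≤ _; omega)
  refine h2.congr fun e => ?_
  constructor
  · rintro ⟨z, ⟨a1, a2⟩, ⟨a3, a4⟩, a5, -⟩
    exact ⟨z 0, z 1, z 2, z 3, by rw [a2, a1], a3, a5, a4⟩
  · rintro ⟨u, z, y, I, a1, a2, a3, a4⟩
    by_cases h0 : z.length = 0
    · refine ⟨![u, z, y, [], u ++ z], ⟨rfl, a1⟩, ⟨a2, a4⟩, ?_, Nat.zero_le _⟩
      show u.length = z.length * ([] : List Bool).length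
      rw [a3, h0]
      simp
    · refine ⟨![u, z, y, I, u ++ z], ⟨rfl, a1⟩, ⟨a2, a4⟩, a3, ?_⟩
      show I.length ≤ u.length
      rw [a3]
      exact Nat.le_mul_of_pos_left _ (Nat.pos_of_ne_zero h0)

theorem nexp_cert {F G : Lang} (hF : F ∈ NEXPLang O) (hG : Gᶜ ∈ NEXPLang O) {rho ell : ℕ → ℕ}
    (hr : Constr O rho) (hrp : PolyB rho) (hl : Constr O ell) (hlp : PolyB ell) :
    NEXP O fun e : Fin 3 → List Bool => Cert F G rho ell (e 0) (e 1) (e 2) := by
  -- n', I, s, a, C, c | w1, w2, q, J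
  have h1 : NEXP O fun e : Fin 10 → List Bool => (e 6 = e 3 ++ e 2 ∧ e 7 = e 6 ++ e 5) ∧
      (e 8 = pair (e 0) (e 7) ∧ e 9 = e 1 ++ [true]) ∧ VP F G rho (e 8) (e 9) := by
    refine ((nexp_append 3 2 6).and (nexp_append 6 5 7)).and (((nexp_pair 0 7 8).and
      (nexp_snoc true 1 9)).and ?_)
    refine ((nexp_VP hF hG hr hrp).reindex ![8, 9]).congr fun e => ?_
    simp
  have h2 := nexp_exN (k := 6) (m := 4) (R := fun e z =>
      (z 0 = e 3 ++ e 2 ∧ z 1 = z 0 ++ e 5) ∧
      (z 2 = pair (e 0) (z 1) ∧ z 3 = e 1 ++ [true]) ∧ VP F G rho (z 2) (z 3)) h1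
    (g := fun n => 2 * n + 2) (((PolyB.const 2).mul PolyB.id).add (PolyB.const 2))
    (fun m n h => by simp only; omega) (by
      rintro e z ⟨⟨a1, a2⟩, ⟨a3, a4⟩, -⟩ j
      have l0 : 2 * (e 0).length + (e 1).length + (e 2).length + (e 3).length + (e 5).length ≤
          2 * size e := by
        unfold size
        simp only [Fin.sum_univ_six]
        omega
      have b1 := congrArg List.length a1
      have b2 := congrArg List.length a2
      have b3 := congrArg List.length a3
      have b4 := congrArg List.length a4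
      rw [length_pair] at b3
      simp only [List.length_append, List.length_cons, List.length_nil] at b1 b2 b4
      show _ ≤ 2 * size e + 2
      fin_cases j
      · show (z 0).length ≤ _; omega
      · show (z 1).length ≤ _; omega
      · show (z 2).length ≤ _; omega
      · show (z 3).length ≤ _; omega)
  have h3 : NEXP O fun e : Fin 6 → List Bool =>
      Low (e 2) (e 5) ∨ VP F G rho (pair (e 0) (e 3 ++ e 2 ++ e 5)) (e 1 ++ [true]) := by
    refine (((nexp_low (O := O)).reindex ![2, 5]).congr fun e => ?_).or (h2.congr fun e => ?_)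
    · simp
    · constructor
      · rintro ⟨z, ⟨a1, a2⟩, ⟨a3, a4⟩, a5⟩
        rw [a3, a4, a2, a1] at a5
        exact a5
      · intro h
        exact ⟨![e 3 ++ e 2, e 3 ++ e 2 ++ e 5, pair (e 0) (e 3 ++ e 2 ++ e 5), e 1 ++ [true]],
          ⟨rfl, rfl⟩, ⟨rfl, rfl⟩, h⟩
  have h4 : NEXP O fun e : Fin 5 → List Bool => ∀ c : List Bool, c.length = (e 4).length →
      Low (e 2) c ∨ VP F G rho (pair (e 0) (e 3 ++ e 2 ++ c)) (e 1 ++ [true]) :=
    nexp_all (k := 5) (R := fun e c =>
      Low (e 2) c ∨ VP F G rho (pair (e 0) (e 3 ++ e 2 ++ c)) (e 1 ++ [true])) h3 4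
  -- n', I, s, a, C, w1, w2
  have h5 : NEXP O fun e : Fin 7 → List Bool =>
      ((e 3).length = (e 2).length * (e 1).length ∧ Pre (e 2).length (val (e 2)) (e 3)) ∧
      ((e 5 = e 3 ++ e 2 ∧ e 6 = e 5 ++ e 4) ∧ (e 6).length = ell (e 0).length) ∧
      ∀ c : List Bool, c.length = (e 4).length →
        Low (e 2) c ∨ VP F G rho (pair (e 0) (e 3 ++ e 2 ++ c)) (e 1 ++ [true]) := by
    refine (NEXP.and ?_ ?_).and ((((nexp_append 3 2 5).and (nexp_append 5 4 6)).and
      (hl.nexp 0 6)).and ?_)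
    · refine ((nexp_mul (O := O)).reindex ![2, 1, 3]).congr fun e => ?_
      simp
    · refine ((nexp_pre (O := O)).reindex ![2, 3]).congr fun e => ?_
      simp
    · refine (h4.reindex ![0, 1, 2, 3, 4]).congr fun e => ?_
      simp
  obtain ⟨d, hd⟩ := hlp
  have h6 := nexp_exN (k := 3) (m := 4) (R := fun e z =>
      ((z 0).length = (e 2).length * (e 1).length ∧ Pre (e 2).length (val (e 2)) (z 0)) ∧
      ((z 2 = z 0 ++ e 2 ∧ z 3 = z 2 ++ z 1) ∧ (z 3).length = ell (e 0).length) ∧
      ∀ c : List Bool, c.length = (z 1).length →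
        Low (e 2) c ∨ VP F G rho (pair (e 0) (z 0 ++ e 2 ++ c)) (e 1 ++ [true])) h5
    (g := fun n => n ^ d + d) (PolyB.id.comp_pow d)
    (fun m n h => Nat.add_le_add_right (Nat.pow_le_pow_left h d) d) (by
      rintro e z ⟨-, ⟨⟨a1, a2⟩, a3⟩, -⟩ j
      have l0 := len_le_size e 0
      have b0 : ell (e 0).length ≤ size e ^ d + d :=
        (hd _).trans (Nat.add_le_add_right (Nat.pow_le_pow_left l0 d) d)
      have b1 := congrArg List.length a1
      have b2 := congrArg List.length a2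
      rw [List.length_append] at b1 b2
      show _ ≤ size e ^ d + d
      fin_cases j
      · show (z 0).length ≤ _; omega
      · show (z 1).length ≤ _; omega
      · show (z 2).length ≤ _; omega
      · show (z 3).length ≤ _; omega)
  refine h6.congr fun e => ?_
  constructor
  · rintro ⟨z, ⟨a1, a2⟩, ⟨⟨a3, a4⟩, a5⟩, a6⟩
    rw [a4, a3] at a5
    exact ⟨z 0, z 1, a1, a2, a5, a6⟩
  · rintro ⟨a, C, a1, a2, a3, a4⟩
    exact ⟨![a, C, a ++ e 2, a ++ e 2 ++ C], ⟨a1, a2⟩, ⟨⟨rfl, rfl⟩, a3⟩, a4⟩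

end Pool.Agent.LibQry85
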