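import Pool.Agent.LibBHN.Count
import Pool.Agent.LibQry85.CertN

/-! Task LQ-9: the relation with advice, in the class. -/

namespace Pool.Agent.LibQry85

open Function Pool.Agent.LibNexp Pool.Agent.LibBHN Pool.Agent.LibDual85

variable {O : List Bool → Bool}

theorem nexp_relC {K F G : Lang} (hK : K ∈ NEXPLang O) (hF : F ∈ NEXPLang O)
    (hG : Gᶜ ∈ NEXPLang O) {rho ell : ℕ → ℕ}
    (hr : Constr O rho) (hrp : PolyB rho) (hl : Constr O ell) (hlp : PolyB ell) :
    NEXP O fun e : Fin 2 → List Bool => RelC K F G rho ell (e 0) (e 1) := by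
  have h1 : NEXP O fun e : Fin 2 → List Bool => e 1 ∈ K ∧ e 1 ≠ e 0 :=
    (nexp_mem hK 1).and (nexp_ne 1 0)
  have h2 : NEXP O fun e : Fin 2 → List Bool => ∃ n, (e 1).length = n + 1 ∧
      val (e 1) ≤ cnt n fun y => y ∈ K ∧ y ≠ e 0 :=
    nexp_count (k := 1) (R := fun e y => y ∈ K ∧ y ≠ e 0) h1
  have h3 : NEXP O fun e : Fin 5 → List Bool => ∃ n, (e 4).length = n + 1 ∧
      val (e 4) ≤ cnt n fun y => y ∈ K ∧ y ≠ e 0 :=
    (h2.reindex ![0, 4]).congr fun e => by simp
  have h4 : NEXP O fun e : Fin 5 → List Bool =>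
      (e 2 = ones (e 0).length ∧ val (e 1) = (e 3).length) ∧
      Cert F G rho ell (e 2) (e 3) (e 4) ∧ (e 4).length = (e 0).length + 1 ∧
      val (e 4) ≤ cnt (e 0).length fun y => y ∈ K ∧ y ≠ e 0 := by
    have hC : NEXP O fun e : Fin 5 → List Bool => Cert F G rho ell (e 2) (e 3) (e 4) :=
      ((nexp_cert hF hG hr hrp hl hlp).reindex ![2, 3, 4]).congr fun e => by simp
    refine (((nexp_ones (O := O) 0 2).and (nexp_valLen 1 3)).and
      (hC.and ((nexp_lin 1 1 0 4).and h3))).congr fun e => ?_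
    constructor
    · rintro ⟨h5, h6, h7, n, h8, h9⟩
      have hn : n = (e 0).length := by omega
      subst hn
      exact ⟨h5, h6, h8, h9⟩
    · rintro ⟨h5, h6, h7, h8⟩
      exact ⟨h5, h6, by omega, _, h7, h8⟩
  obtain ⟨d, hd⟩ := hlp
  refine (nexp_exN (k := 2) (m := 3) (R := fun e z =>
      (z 0 = ones (e 0).length ∧ val (e 1) = (z 1).length) ∧
      Cert F G rho ell (z 0) (z 1) (z 2) ∧ (z 2).length = (e 0).length + 1 ∧
      val (z 2) ≤ cnt (e 0).length fun y => y ∈ K ∧ y ≠ e 0) h4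
    (g := fun n => n ^ d + d + (n + 1)) ((PolyB.id.comp_pow d).add (PolyB.id.add (PolyB.const 1)))
    (fun m n h => ?_) ?_).congr fun e => ?_
  · have := Nat.pow_le_pow_left h d
    simp only
    omega
  · rintro e z ⟨⟨h5, h6⟩, ⟨a, C, h7, -, h8, -⟩, h9, -⟩ j
    have l0 := len_le_size e 0
    have b1 : ell (z 0).length ≤ size e ^ d + d := by
      rw [h5, List.length_replicate]
      exact (hd _).trans (Nat.add_le_add_right (Nat.pow_le_pow_left l0 d) d)
    have b2 : (z 0).length = (e 0).length := by rw [h5, List.length_replicate]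
    simp only [List.length_append] at h8
    have b3 : (z 1).length ≤ (z 2).length * (z 1).length :=
      Nat.le_mul_of_pos_left _ (by omega)
    show _ ≤ size e ^ d + d + (size e + 1)
    fin_cases j
    · show (z 0).length ≤ _; omega
    · show (z 1).length ≤ _; omega
    · show (z 2).length ≤ _; omega
  · constructor
    · rintro ⟨z, h5, h6⟩
      exact ⟨z 0, z 1, z 2, h5, h6⟩
    · rintro ⟨n', I, s, h5, h6⟩
      exact ⟨![n', I, s], h5, h6⟩

end Pool.Agent.LibQry85
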