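import Pool.Agent.LibDual85.KProt
import Pool.Agent.LibQry85.ChainLang
import Pool.Agent.LibQry85.Ell
import Pool.Agent.LibQry85.RelCI
import Pool.Agent.LibQry85.RelCN

/-! Task LQ-12: from one more query to advice. -/

namespace Pool.Agent.LibQry85

open Function Pool.Agent.LibNexp Pool.Agent.LibBHN Pool.Agent.LibDual85

variable {O : List Bool → Bool}

theorem polyB_of_log {r : ℕ → ℕ} {M D : ℕ}
    (hM : ∀ n, (M + 1) * r n ≤ M * Nat.log 2 (n + 1) + D) : PolyB r := by
  refine PolyB.mono (PolyB.id.add (PolyB.const D)) fun n => ?_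
  have h1 := hM n
  have h2 : Nat.log 2 (n + 1) ≤ n := by
    have h0 : Nat.log 2 (n + 1) < n + 1 := Nat.log_lt_self 2 (Nat.succ_ne_zero n)
    omega
  have h3 : M * Nat.log 2 (n + 1) ≤ M * n := Nat.mul_le_mul_left _ h2
  show r n ≤ n + D
  by_contra hlt
  push Not at hlt
  have h4 : (M + 1) * (n + D) < (M + 1) * r n := Nat.mul_lt_mul_of_pos_left hlt (Nat.succ_pos M)
  nlinarith

/-- Finitely many lengths do not matter. -/
theorem advice_patch {K : Lang} {R : List Bool → List Bool → Prop}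
    (hR : NEXP O fun e : Fin 2 → List Bool => R (e 0) (e 1)) {f : ℕ → List Bool} {n0 : ℕ}
    (h : ∀ x : List Bool, n0 ≤ x.length → (R x (f x.length) ↔ x ∉ K)) {s : ℕ → ℕ}
    (hs : ∀ n, (f n).length ≤ s n) :
    Kᶜ ∈ WithAdvice (NEXPLang O) {f | ∀ n, (f n).length ≤ s n} := by
  have hfin : {x : List Bool | x.length < n0 ∧ x ∉ K}.Finite :=
    (List.finite_length_lt Bool n0).subset fun x hx => hx.1
  have h1 : NEXP O fun e : Fin 2 → List Bool => ∃ w ∈ hfin.toFinset, e 0 = w :=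
    NEXP.finite_exists hfin.toFinset fun w _ => nexp_const w 0
  have h2 : NEXP O fun e : Fin 2 → List Bool => ∃ z : List Bool, z.length = 0 * (e 0).length + n0 ∧
      z.length ≤ (e 0).length := by
    have h3 : NEXP O fun e : Fin 3 → List Bool => (e 2).length = 0 * (e 0).length + n0 ∧
        (e 2).length ≤ (e 0).length := (nexp_lin 0 n0 0 2).and (nexp_lenLe 2 0)
    refine nexp_ex (R := fun (e : Fin 2 → List Bool) z => z.length = 0 * (e 0).length + n0 ∧
      z.length ≤ (e 0).length) h3 (g := fun n => n) PolyB.id ?_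
    rintro e z ⟨-, h4⟩
    exact h4.trans (len_le_size e 0)
  obtain ⟨B, hB, hBR⟩ := rel_of_nexp (C := fun x a => (∃ w ∈ hfin.toFinset, x = w) ∨
    ((∃ z : List Bool, z.length = 0 * x.length + n0 ∧ z.length ≤ x.length) ∧ R x a))
    (h1.or (h2.and hR))
  refine ⟨B, hB, f, hs, ?_⟩
  ext x
  rw [Set.mem_compl_iff, Set.mem_ofPred_eq, hBR]
  constructor
  · intro hx
    rcases Nat.lt_or_ge x.length n0 with h3 | h3
    · left
      exact ⟨x, hfin.mem_toFinset.2 ⟨h3, hx⟩, rfl⟩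
    · right
      exact ⟨⟨List.replicate n0 true, by simp, by simpa using h3⟩, (h x h3).2 hx⟩
  · rintro (⟨w, hw, rfl⟩ | ⟨⟨z, h3, h4⟩, h5⟩)
    · exact (hfin.mem_toFinset.1 hw).2
    · exact (h x (by omega)).1 h5

theorem advice_of_saving {R : ℕ → ℕ} (hR : Constr O R) (hRp : PolyB R) {M : ℕ}
    (h : ∀ L ∈ PQueryF (NEXPLang O) R, ∃ r : ℕ → ℕ, Constr O r ∧
      (∃ D : ℕ, ∀ n, (M + 1) * r n ≤ M * Nat.log 2 (n + 1) + D) ∧
      (∃ n0 : ℕ, ∀ n, n0 ≤ n → r n < R n) ∧ L ∈ PQueryF (NEXPLang O) r) :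
    ∀ L ∈ NEXPLang O, ∃ c : ℕ, Lᶜ ∈ WithAdvice (NEXPLang O)
        {f | ∀ n, (f n).length ≤ M * Nat.log 2 (n + 1) + c} := by
  intro K hK
  obtain ⟨Lc, hLc1, hLc2⟩ := exists_chainLang hK hR hRp
  obtain ⟨r, hr, ⟨D, hM⟩, ⟨n0, hn0⟩, hLr⟩ := h Lc hLc1
  obtain ⟨ell, hell1, hell2, hell3, c, hc⟩ := exists_ell O hM
  have hrp : PolyB r := polyB_of_log hM
  obtain ⟨F, hF, G, hG, hG', hFG⟩ := kprot_of_pqueryF hLr
  have hcase : ∀ n, ∃ i, n0 ≤ n → (i < 2 ^ (r (2 * n + 2 + ell n) + 1) ∧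
      ∀ x a : List Bool, x.length = n → val a = i → (RelC K F G r ell x a ↔ x ∉ K)) := by
    intro n
    by_cases hn : n0 ≤ n
    · obtain ⟨i, hi⟩ := exists_case (K := K) (n := n) (rho := r) (ell := ell) (Lc := Lc)
        (F := F) (G := G) (by
          intro Y m hY hm hj
          have h1 := hn0 (2 * n + 2 + ell n) (by omega)
          have h2 : (pair (ones n) Y).length = 2 * n + 2 + ell n := by
            rw [length_pair, List.length_replicate, hY]
            omega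
          refine hLc2 (ones n) Y m (by rw [h2]; omega) ?_ (by simpa using hj)
          rw [h2]
          exact hm.trans_le (Nat.pow_le_pow_right (by norm_num) h1)) hFG (hell3 n)
      exact ⟨i, fun _ => hi⟩
    · exact ⟨0, fun h1 => absurd h1 hn⟩
  choose i hi using hcase
  refine ⟨c, advice_patch (K := K) (R := RelC K F G r ell) (nexp_relC hK hF hG' hr hrp hell1 hell2)
    (f := fun n => bits (r (2 * n + 2 + ell n) + 1) (i n)) (n0 := n0) ?_ ?_⟩
  · intro x hx
    obtain ⟨h1, h2⟩ := hi x.length hx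
    exact h2 x _ rfl (val_bits h1)
  · intro n
    rw [length_bits]
    exact hc n

end Pool.Agent.LibQry85
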