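import Pool.Agent.LibBHN.Misc
import Pool.Agent.LibQry85.Defs

/-! Constructible functions. -/

namespace Pool.Agent.LibQry85

open Function Pool.Agent.LibNexp Pool.Agent.LibBHN Pool.Agent.LibDual85

variable {O : List Bool → Bool}

theorem Constr.lin {r : ℕ → ℕ} (h : Constr O r) (hp : PolyB r) (c d : ℕ) :
    Constr O fun n => c * r n + d := by
  obtain ⟨a, ha⟩ := hp
  have h1 : NEXP O fun e : Fin 3 → List Bool => (e 2).length = r (e 0).length ∧
      (e 1).length = c * (e 2).length + d := (h.nexp 0 2).and (nexp_lin c d 2 1)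
  have h2 := nexp_ex (R := fun (e : Fin 2 → List Bool) z => z.length = r (e 0).length ∧
      (e 1).length = c * z.length + d) h1 (g := fun n => n ^ a + a) (PolyB.id.comp_pow a) (by
    rintro e z ⟨h3, -⟩
    rw [h3]
    exact (ha _).trans (Nat.add_le_add_right (Nat.pow_le_pow_left (len_le_size e 0) a) a))
  refine constr_of_nexp (h2.congr fun e => ?_)
  constructor
  · rintro ⟨z, h3, h4⟩
    rw [h4, h3]
  · intro h3
    exact ⟨ones (r (e 0).length), by simp, by simpa using h3⟩

theorem constr_pow (O : List Bool → Bool) (k : ℕ) : Constr O fun n => n ^ k :=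
  constr_of_nexp (nexp_powAdd k 0 0 1)

end Pool.Agent.LibQry85
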