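import Pool.Agent.LibDual85.Main
import Pool.Agent.LibQry85.Adv
import Pool.Agent.LibQry85.Lin
import Pool.Agent.LibQry85.Sub
import Pool.Agent.LibQry85.Up

/-! Task LQ-15: the theorem. -/

namespace Pool.Agent.LibQry85

open Function Pool.Agent.LibNexp Pool.Agent.LibBHN Pool.Agent.LibDual85

variable {O : List Bool → Bool}

theorem small_of_law (h : ∀ N : ℕ, 1 ≤ N → ∀ L ∈ POracle (NEXPLang O), ∃ c : ℕ,
      L ∈ PQueryF (NEXPLang O) fun n => Nat.log 2 (n + 1) / N + c) {r : ℕ → ℕ}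
    (hr : Constr O r) (hrp : PolyB r) {N : ℕ} (hN : ∀ n, Nat.log 2 (n + 1) + 1 ≤ N * r n) :
    POracle (NEXPLang O) ⊆ PQueryF (NEXPLang O) r := by
  have hN1 : 1 ≤ N := by
    rcases Nat.eq_zero_or_pos N with h0 | h0
    · have h1 := hN 0
      rw [h0, zero_mul] at h1
      omega
    · exact h0
  have hr1 : ∀ n, 1 ≤ r n := by
    intro n
    rcases Nat.eq_zero_or_pos (r n) with h0 | h0
    · have h1 := hN n
      rw [h0, mul_zero] at h1
      omega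
    · exact h0
  intro L hL
  obtain ⟨c, hc⟩ := h (2 * N) (by omega) L hL
  refine pqueryF_up (n0 := 2 ^ (2 * N * (c + 1))) hr hrp
    (constr_of_nexp (nexp_logDiv (by omega) c 0 1)) ?_ hr1 ?_ hc
  · refine (PolyB.id.add (PolyB.const c)).mono fun n => ?_
    have h1 : Nat.log 2 (n + 1) ≤ n := Nat.le_of_lt_succ (Nat.log_lt_self 2 (Nat.succ_ne_zero n))
    have h2 : Nat.log 2 (n + 1) / (2 * N) ≤ Nat.log 2 (n + 1) := Nat.div_le_self _ _
    omega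
  · intro n hn
    have h1 : 2 * N * (c + 1) ≤ Nat.log 2 (n + 1) := by
      refine Nat.le_log_of_pow_le (by norm_num) ?_
      omega
    have h2 : 2 * N * (Nat.log 2 (n + 1) / (2 * N)) ≤ Nat.log 2 (n + 1) := Nat.mul_div_le _ _
    have h3 := hN n
    by_contra h4
    have h5 : r n ≤ Nat.log 2 (n + 1) / (2 * N) + c := by omega
    have h6 : 2 * N * r n ≤ 2 * N * (Nat.log 2 (n + 1) / (2 * N) + c) := Nat.mul_le_mul_left _ h5
    have h7 : 2 * N * (Nat.log 2 (n + 1) / (2 * N) + c) =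
        2 * N * (Nat.log 2 (n + 1) / (2 * N)) + 2 * N * c := by ring
    have h8 : 2 * N * (c + 1) = 2 * N * c + 2 * N := by ring
    have h9 : 2 * N * r n = 2 * (N * r n) := by ring
    omega

theorem main (O : List Bool → Bool) : List.TFAE
    [∃ (M : ℕ) (r : ℕ → ℕ), Constr O r ∧
        (∃ D : ℕ, ∀ n, (M + 1) * r n ≤ M * Nat.log 2 (n + 1) + D) ∧
        PQueryF (NEXPLang O) (fun n => r n + 1) ⊆ PQueryF (NEXPLang O) r,
      ∃ (M : ℕ) (R : ℕ → ℕ), Constr O R ∧ (∃ c : ℕ, ∀ n, R n ≤ n ^ c + c) ∧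
        ∀ L ∈ PQueryF (NEXPLang O) R, ∃ r : ℕ → ℕ, Constr O r ∧
          (∃ D : ℕ, ∀ n, (M + 1) * r n ≤ M * Nat.log 2 (n + 1) + D) ∧
          (∃ n0 : ℕ, ∀ n, n0 ≤ n → r n < R n) ∧ L ∈ PQueryF (NEXPLang O) r,
      ∀ r : ℕ → ℕ, Constr O r → (∃ c : ℕ, ∀ n, r n ≤ n ^ c + c) →
        (∃ N : ℕ, ∀ n, Nat.log 2 (n + 1) + 1 ≤ N * r n) →
        PQueryF (NEXPLang O) r = POracle (NEXPLang O),
      ∃ C : ℕ, ∀ L ∈ POracle (NEXPLang O), ∃ c : ℕ,
        L ∈ PQueryF (NEXPLang O) fun n => C * Nat.log 2 (n + 1) + c,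
      ∀ N : ℕ, 1 ≤ N → ∀ L ∈ POracle (NEXPLang O), ∃ c : ℕ,
        L ∈ PQueryF (NEXPLang O) fun n => Nat.log 2 (n + 1) / N + c,
      ∃ C : ℕ, ∀ L ∈ NEXPLang O, ∃ c : ℕ, Lᶜ ∈ WithAdvice (NEXPLang O)
        {f | ∀ n, (f n).length ≤ C * Nat.log 2 (n + 1) + c},
      ∀ N : ℕ, 1 ≤ N → ∀ L ∈ NEXPLang O, ∃ c : ℕ, Lᶜ ∈ WithAdvice (NEXPLang O)
        {f | ∀ n, (f n).length ≤ Nat.log 2 (n + 1) / N + c}] := by
  have hlaw := main_law O
  have h34 := hlaw.out 0 1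
  have h35 := hlaw.out 0 2
  have h36 := hlaw.out 0 3
  tfae_have 4 ↔ 5 := h34
  tfae_have 4 ↔ 6 := h35
  tfae_have 4 ↔ 7 := h36
  tfae_have 1 → 2 := by
    rintro ⟨M, r, hr, ⟨D, hM⟩, h⟩
    obtain ⟨c, hc⟩ := (polyB_of_log hM).add (PolyB.const 1)
    have h1 : Constr O fun n => r n + 1 := by
      have := hr.lin (polyB_of_log hM) 1 1
      simpa using this
    exact ⟨M, fun n => r n + 1, h1, ⟨c, hc⟩, fun L hL =>
      ⟨r, hr, ⟨D, hM⟩, ⟨0, fun n _ => Nat.lt_succ_self _⟩, h hL⟩⟩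
  tfae_have 2 → 6 := fun ⟨M, R, hR, hRp, h⟩ => ⟨M, advice_of_saving hR hRp h⟩
  tfae_have 5 → 3 := fun h r hr hrp ⟨N, hN⟩ =>
    (pqueryF_subset hr hrp).antisymm (small_of_law h hr hrp hN)
  tfae_have 3 → 1 := by
    intro h
    have hlog : ∀ n : ℕ, Nat.log 2 (n + 1) ≤ n := fun n =>
      Nat.le_of_lt_succ (Nat.log_lt_self 2 (Nat.succ_ne_zero n))
    have hc1 : Constr O fun n => Nat.log 2 (n + 1) / 2 + 1 :=
      constr_of_nexp (nexp_logDiv (by norm_num) 1 0 1)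
    have hc2 : Constr O fun n => Nat.log 2 (n + 1) / 2 + 2 :=
      constr_of_nexp (nexp_logDiv (by norm_num) 2 0 1)
    have hp1 : PolyB fun n => Nat.log 2 (n + 1) / 2 + 1 :=
      (PolyB.id.add (PolyB.const 1)).mono fun n => by
        have := hlog n
        omega
    have hp2 : PolyB fun n => Nat.log 2 (n + 1) / 2 + 2 :=
      (PolyB.id.add (PolyB.const 2)).mono fun n => by
        have := hlog n
        omega
    refine ⟨1, fun n => Nat.log 2 (n + 1) / 2 + 1, hc1, ⟨2, fun n => by simp only; omega⟩, ?_⟩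
    have h1 := h _ hc1 hp1 ⟨2, fun n => by omega⟩
    rw [h1]
    exact pqueryF_subset hc2 hp2
  tfae_finish

end Pool.Agent.LibQry85
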