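import Pool.Agent.LibQry85.Defs

/-! Task LQ-1: blocks. -/

namespace Pool.Agent.LibQry85

open Function Pool.Agent.LibNexp Pool.Agent.LibBHN Pool.Agent.LibDual85

theorem blk_append_left {b k : ℕ} {a c : List Bool} (h : b * k + b ≤ a.length) :
    blk b k (a ++ c) = blk b k a := by
  unfold blk
  rw [List.drop_append_of_le_length (by omega), List.take_append_of_le_length]
  rw [List.length_drop]; omega

theorem blk_append_right {b n k : ℕ} {a c : List Bool} (h : a.length = b * n) :
    blk b (n + k) (a ++ c) = blk b k c := by
  unfold blk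
  have e : b * (n + k) = a.length + b * k := by rw [h]; ring
  rw [e, List.drop_append, List.drop_of_length_le (Nat.le_add_right _ _), List.nil_append,
    Nat.add_sub_cancel_left]

theorem blk_zero_append {b : ℕ} {s c : List Bool} (h : s.length = b) :
    blk b 0 (s ++ c) = s := by
  unfold blk
  rw [mul_zero, List.drop_zero, ← h, List.take_left]

/-- the blocks of `a ++ s ++ c` after the block `s` -/
theorem blk_tail {b i k : ℕ} {a s c : List Bool} (ha : a.length = b * i) (hs : s.length = b) :
    blk b (i + 1 + k) (a ++ s ++ c) = blk b k c := by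
  apply blk_append_right
  rw [List.length_append, ha, hs]; ring

theorem blk_mid {b i : ℕ} {a s c : List Bool} (ha : a.length = b * i) (hs : s.length = b) :
    blk b i (a ++ s ++ c) = s := by
  rw [List.append_assoc, show i = i + 0 from rfl, blk_append_right ha, blk_zero_append hs]

private theorem no_later {b i T : ℕ} {a s c : List Bool} (ha : a.length = b * i)
    (hs : s.length = b) (hc : ∀ k, b * k + b ≤ c.length → T ≤ val (blk b k c)) {i' : ℕ}
    (h1 : b * i' + b ≤ (a ++ s ++ c).length) (h2 : val (blk b i' (a ++ s ++ c)) < T) :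
    i' ≤ i := by
  by_contra hcon
  obtain ⟨k, rfl⟩ : ∃ k, i' = i + 1 + k := ⟨i' - (i + 1), by omega⟩
  rw [blk_tail ha hs] at h2
  have h3 : b * k + b ≤ c.length := by
    rw [List.length_append, List.length_append, ha, hs] at h1
    have : b * (i + 1 + k) = b * i + b + b * k := by ring
    omega
  have := hc k h3
  omega

/-- The last reached block is `s`. -/
theorem rch_lt {b i T : ℕ} (hb : 1 ≤ b) {a s c : List Bool} (ha : a.length = b * i)
    (hs : s.length = b) (h : val s < T) (hc : ∀ k, b * k + b ≤ c.length → T ≤ val (blk b k c))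
    (j : ℕ) : Rch b T (a ++ s ++ c) j ↔ j ≤ i + 1 := by
  constructor
  · rintro ⟨i', h1, h2, h3⟩
    have := no_later ha hs hc h2 h3
    omega
  · intro hj
    refine ⟨i, hj, ?_, ?_⟩
    · rw [List.length_append, List.length_append, ha, hs]; omega
    · rw [blk_mid ha hs]; exact h

/-- The last reached block is the last block of `a`. -/
theorem rch_ge {b i T : ℕ} (hb : 1 ≤ b) {a s c : List Bool} (ha : a.length = b * i)
    (hs : s.length = b) (h : T ≤ val s) (hpre : Pre b T a)
    (hc : ∀ k, b * k + b ≤ c.length → T ≤ val (blk b k c)) (j : ℕ) (hj : 1 ≤ j) :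
    Rch b T (a ++ s ++ c) j ↔ j ≤ i := by
  constructor
  · rintro ⟨i', h1, h2, h3⟩
    have h4 := no_later ha hs hc h2 h3
    have h5 : i' ≠ i := by
      rintro rfl
      rw [blk_mid ha hs] at h3
      omega
    omega
  · intro hji
    obtain ⟨n, rfl⟩ : ∃ n, i = n + 1 := ⟨i - 1, by omega⟩
    rcases hpre with rfl | ⟨a0, z, rfl, hz, hzT⟩
    · exfalso
      rw [List.length_nil] at ha
      have : 0 < b * (n + 1) := Nat.mul_pos hb (by omega)
      omega
    · have ha0 : a0.length = b * n := by
        rw [List.length_append, hz] at ha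
        have : b * (n + 1) = b * n + b := by ring
        omega
      refine ⟨n, hji, ?_, ?_⟩
      · rw [List.length_append, List.length_append, ha, hs]
        have : b * (n + 1) = b * n + b := by ring
        omega
      · have e : a0 ++ z ++ s ++ c = a0 ++ z ++ (s ++ c) := by simp
        rw [e, blk_mid ha0 hz]
        exact hzT

/-- Blocks of ones. -/
theorem val_blk_ones {b k m : ℕ} (h : b * k + b ≤ m) : val (blk b k (ones m)) + 1 = 2 ^ b := by
  have e : blk b k (ones m) = List.replicate b true := by
    unfold blk
    rw [List.drop_replicate, List.take_replicate]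
    congr 1
    omega
  rw [e]
  clear e h
  induction b with
  | zero => rfl
  | succ b ih =>
    rw [List.replicate_succ, pow_succ]
    simp only [val, Bool.toNat_true]
    omega

theorem above_append {b s t m : ℕ} {c : List Bool} (hb : 1 ≤ b) (ht : t < 2 ^ b) (hst : s < t)
    (hc : Above b t c) : Above b s (bits b t ++ c) := by
  intro k hk
  have hlen : (bits b t).length = b := length_bits b t
  rcases Nat.eq_zero_or_pos k with rfl | hk0
  · rw [blk_zero_append hlen, val_bits ht]
    exact hst
  · obtain ⟨n, rfl⟩ : ∃ n, k = 1 + n := ⟨k - 1, by omega⟩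
    rw [blk_append_right (n := 1) (by rw [hlen, mul_one])]
    have h1 := hc n (by
      rw [List.length_append, hlen] at hk
      have : b * (1 + n) = b + b * n := by ring
      omega)
    omega

end Pool.Agent.LibQry85
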