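import Pool.Agent.LibQry85.VPsem

/-! Task LQ-8: certificates and cases. -/

namespace Pool.Agent.LibQry85

open Function Pool.Agent.LibNexp Pool.Agent.LibBHN Pool.Agent.LibDual85

theorem low_iff {s c : List Bool} : Low s c ↔ ¬ Above s.length (val s) c := by
  constructor
  · rintro ⟨u, z, y, I, rfl, h2, h3, h4⟩ h
    have h5 : s.length * I.length + s.length ≤ (u ++ z ++ y).length := by
      rw [List.length_append, List.length_append, h3, h2]
      omega
    have h6 := h I.length h5
    have h7 : blk s.length I.length (u ++ z ++ y) = z := by
      unfold blk
      rw [← h2, ← h3, List.append_assoc, List.drop_left, List.take_left]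
    rw [h7] at h6
    omega
  · intro h
    unfold Above at h
    push Not at h
    obtain ⟨k, h1, h2⟩ := h
    have hlen : (blk s.length k c).length = s.length := by
      unfold blk
      rw [List.length_take, List.length_drop]
      omega
    refine ⟨c.take (s.length * k), blk s.length k c, c.drop (s.length * k + s.length),
      List.replicate k true, ?_, hlen, ?_, h2⟩
    · unfold blk
      rw [List.append_assoc, ← List.drop_drop, List.take_append_drop, List.take_append_drop]
    · rw [List.length_take, hlen, List.length_replicate]
      omega

theorem cert_iff {F G : Lang} {rho ell : ℕ → ℕ} {n' I s : List Bool} :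
    Cert F G rho ell n' I s ↔ CaseAt s.length (ell n'.length)
      (fun Y => vprime F G rho (pair n' Y)) I.length s := by
  unfold Cert CaseAt
  constructor
  · rintro ⟨a, C, h1, h2, h3, h4⟩
    refine ⟨a, h1, h2, C.length, ?_, ?_⟩
    · rw [← h3, List.length_append, List.length_append, h1]
      ring
    · intro c hc hab
      rcases h4 c hc with h5 | h5
      · exact absurd hab (low_iff.1 h5)
      · rw [vp_iff, List.length_append] at h5
        exact h5
  · rintro ⟨a, h1, h2, m, h3, h4⟩
    refine ⟨a, List.replicate m true, h1, h2, ?_, ?_⟩
    · rw [List.length_append, List.length_append, h1, List.length_replicate, ← h3]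
      ring
    · intro c hc
      rw [List.length_replicate] at hc
      by_cases hab : Above s.length (val s) c
      · right
        rw [vp_iff, List.length_append]
        exact h4 c hc hab
      · left
        exact low_iff.2 hab

end Pool.Agent.LibQry85
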