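import Pool.Agent.LibQry85.Defs

/-! Task LQ-3: the value of a protocol. -/

namespace Pool.Agent.LibQry85

open Function Pool.Agent.LibNexp Pool.Agent.LibBHN Pool.Agent.LibDual85

private theorem vpsem_legal_append {F : Lang} {q α : List Bool} {b : Bool} :
    Legal F q (α ++ [b]) ↔ Legal F q α ∧ (b = true → pair q α ∈ F) := by
  constructor
  · intro h
    refine ⟨fun β γ e => h β (γ ++ [b]) (by rw [e]; simp), fun hb => h α [] (by rw [hb])⟩
  · rintro ⟨h1, h2⟩ β γ e
    rcases List.eq_nil_or_concat γ with rfl | ⟨γ', c, rfl⟩
    · obtain ⟨h3, h4⟩ := List.append_inj' e rfl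
      have h5 : b = true := by simpa using h4
      rw [← h3]; exact h2 h5
    · have e2 : α ++ [b] = (β ++ true :: γ') ++ [c] := by rw [e]; simp
      obtain ⟨h3, -⟩ := List.append_inj' e2 rfl
      exact h1 β γ' h3

private theorem vpsem_legal_kans (F : Lang) (q : List Bool) (l : ℕ) :
    Legal F q (kans F (fun β => β) q l) := by
  induction l with
  | zero =>
    intro β γ e
    rw [kans] at e
    exact absurd (congrArg List.length e) (by simp)
  | succ l ih =>
    rw [kans, vpsem_legal_append]
    exact ⟨ih, fun h => by simpa using h⟩

private theorem vpsem_val_rev (α : List Bool) (b : Bool) :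
    val (α ++ [b]).reverse = b.toNat + 2 * val α.reverse := by
  rw [List.reverse_append, List.reverse_singleton, List.singleton_append, val]

private theorem vpsem_max (F : Lang) (q : List Bool) : ∀ (l : ℕ) (α : List Bool), α.length = l →
    Legal F q α → val α.reverse < val (kans F (fun β => β) q l).reverse ∨
      α = kans F (fun β => β) q l := by
  intro l
  induction l with
  | zero =>
    intro α h _
    right
    rw [List.length_eq_zero_iff.1 h]
    rfl
  | succ l ih =>
    intro α h hL
    rcases List.eq_nil_or_concat α with rfl | ⟨α', b, rfl⟩
    · simp at h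
    · rw [List.concat_eq_append] at h hL ⊢
      rw [List.length_append, List.length_singleton] at h
      rw [vpsem_legal_append] at hL
      rw [kans, vpsem_val_rev, vpsem_val_rev]
      have hb1 : b.toNat ≤ 1 := by cases b <;> simp
      rcases ih α' (by omega) hL.1 with h1 | h1
      · left
        omega
      · rw [← h1]
        by_cases hF : pair q α' ∈ F
        · cases b
          · left
            simp [hF]
          · right
            simp [hF]
        · have hb : b = false := by
            cases b
            · rfl
            · exact absurd (hL.2 rfl) hF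
          right
          rw [hb]
          simp [hF]

theorem vp_iff (F G : Lang) (rho : ℕ → ℕ) (q J : List Bool) :
    VP F G rho q J ↔ J.length ≤ vprime F G rho q := by
  unfold VP vprime
  constructor
  · rintro ⟨α, h1, h2, h3⟩
    rcases vpsem_max F q _ α h1 h2 with h4 | h4
    · rcases h3 with h3 | ⟨h3, -⟩
      · omega
      · omega
    · rw [h4] at h3
      rcases h3 with h3 | ⟨h3, h5⟩
      · omega
      · rw [if_neg h5]
        omega
  · intro h
    refine ⟨kans F (fun β => β) q (rho q.length), length_kans .., vpsem_legal_kans F q _, ?_⟩
    by_cases hG : pair q (kans F (fun β => β) q (rho q.length)) ∈ G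
    · rw [if_pos hG] at h
      left
      omega
    · rw [if_neg hG] at h
      right
      exact ⟨h, hG⟩

theorem vprime_lt (F G : Lang) (rho : ℕ → ℕ) (q : List Bool) :
    vprime F G rho q < 2 ^ (rho q.length + 1) := by
  have h1 := val_lt (kans F (fun β => β) q (rho q.length)).reverse
  rw [List.length_reverse, length_kans] at h1
  unfold vprime
  rw [pow_succ]
  split_ifs <;> omega

theorem odd_vprime (F G : Lang) (rho : ℕ → ℕ) (q : List Bool) :
    Odd (vprime F G rho q) ↔ pair q (kans F (fun β => β) q (rho q.length)) ∉ G := by
  unfold vprime
  split_ifs with h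
  · simp [h]
  · simp [h]

end Pool.Agent.LibQry85
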